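import Pool.Agent.TH656.Bx.Red

/-!
# BOXICITY is NP-hard on graphs of bounded treewidth

The definitions (`HasBoxRep`, `boxicity`, `Chordal`, `treewidth`) are in `TH656/Bx/Defs`.

The reduction is from bin packing with numbers in unary (and, to begin with, from exact cover by
3-sets).  Nine hubs form a complete 3-partite graph `K_{3,3,3}` whose parts are independent sets;
two vertices that are both adjacent to two vertices of a part cannot be separated in the dimension
of this part, so all the structure lies in the fourth dimension, a line.  There a long path (the
frame) is covered by the bins, and each item is a path that has to lie between two consecutive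
separators.  The vertices of an item have cyclically the types `0, 1, 2`, and a vertex of type `τ`
may meet a frame vertex only if the two are separated in the dimension of the part `τ`; this makes
the item of size `s` occupy `6 s` frame vertices.
-/

set_option autoImplicit false

namespace Pool.Agent.Results.MP_33ea09_lc.BoxicityTreewidthHard

open Pool.Agent.NPC Pool.Agent.H692R2 Pool.Agent.TH656.Bx

/-- **BOXICITY is NP-hard on graphs of treewidth at most eleven**, even for dimension four.
Every language in NP has a polynomial-time reduction `f` to graphs of treewidth at most `11` with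
`x ∈ L ↔ boxicity (f x) ≤ 4`; and for every `t ≥ 11` it is NP-hard to decide, for a graph `G` and a
number `d`, whether `treewidth G ≤ t` and `boxicity G ≤ d`. -/
theorem result :
    (∀ L : Set (List Bool), InNP L → ∃ f : List Bool → FinGraph, PolyTime (fun x => bits (f x)) ∧
      ∀ x, treewidth (f x).graph ≤ 11 ∧ (x ∈ L ↔ boxicity (f x).graph ≤ 4)) ∧
    ∀ t : ℕ, 11 ≤ t →
      NPHardP (fun I : FinGraph × ℕ => treewidth I.1.graph ≤ t ∧ boxicity I.1.graph ≤ I.2) := by
  constructor
  · intro L hL
    obtain ⟨f, hf, h1, h2⟩ := hard L hL
    exact ⟨f, PC.toPolyTime hf, fun x => ⟨h1 x, h2 x⟩⟩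
  · intro t ht
    exact (hard.trans (Pr' := fun _ => True)
      (Q := fun I : FinGraph × ℕ => treewidth I.1.graph ≤ t ∧ boxicity I.1.graph ≤ I.2)
      (f := fun G => (G, 4)) (NPC.Poly.pair NPC.Poly.id (NPC.Poly.const 4))
      (fun _ _ => trivial)
      (fun G hG => ⟨fun h => ⟨hG.trans ht, h⟩, fun h => h.2⟩)).toHardI.toNPHardP

end Pool.Agent.Results.MP_33ea09_lc.BoxicityTreewidthHard
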